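import Pool.Agent.Results.MP_8d161b_co.Asymptotic
import Pool.Agent.Y14.SC.Sys

/-!
# Clique minors forced by `p`-schemes: `g(p) = p/2 + O(√p log p)`

The upper bound uses a linear triple system on `p` points in which every set without a triple has
`O(√p log p)` points: the points lie in the affine plane over a field of characteristic three, and
each non-vertical line carries a randomly relabelled copy of the triples with sum zero.
-/

set_option autoImplicit false

namespace Pool.Agent.Results.MP_8d161b_co.SqrtLogError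

open Finset Asymptotic Pool.Agent.Y14.SC

lemma log_three : Real.log 3 ≤ 1.3864 := by
  have h1 : Real.log 3 ≤ Real.log 4 := Real.log_le_log (by norm_num) (by norm_num)
  have h2 : Real.log 4 = 2 * Real.log 2 := by
    rw [show (4 : ℝ) = 2 ^ 2 by norm_num, Real.log_pow]
    norm_num
  have h3 := Real.log_two_lt_d9
  linarith

/-- A linear triple system on `p` points in which every set without a triple is small. -/
lemma exists_linear (p : ℕ) (hp : 2 ≤ p) : ∃ Fm : Set (Finset (Fin p)), Linear Fm ∧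
    ∀ S : Finset (Fin p), (∀ T ∈ Fm, ¬ T ⊆ S) →
      (S.card : ℝ) ≤ √(p : ℝ) * (26 + 6 * Real.log p) := by
  classical
  obtain ⟨k, hk⟩ : ∃ k, k = Nat.clog 9 p := ⟨_, rfl⟩
  have hk1 : p ≤ 9 ^ k := by rw [hk]; exact Nat.le_pow_clog (by norm_num) p
  have hk0 : 0 < k := by rw [hk]; exact Nat.clog_pos (by norm_num) hp
  have hk2 : 9 ^ (k - 1) < p := by
    rw [hk]; exact Nat.pow_pred_clog_lt_self (by norm_num) (by omega)
  have hk3 : 9 ^ k < 9 * p := by
    obtain ⟨j, rfl⟩ : ∃ j, k = j + 1 := ⟨k - 1, by omega⟩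
    rw [pow_succ]
    simp only [Nat.add_sub_cancel] at hk2
    omega
  let F : Type := GaloisField 3 k
  have hF : Fintype F := Fintype.ofFinite F
  have hcard : Fintype.card F = 3 ^ k := by
    rw [← Nat.card_eq_fintype_card]
    exact GaloisField.card 3 k hk0.ne'
  obtain ⟨π, hπ⟩ := exists_sys (F := F)
  have hle : Fintype.card (Fin p) ≤ Fintype.card (F × F) := by
    rw [Fintype.card_prod, hcard, Fintype.card_fin, ← mul_pow]
    exact hk1
  obtain ⟨e⟩ := Function.Embedding.nonempty_of_card_le hle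
  refine ⟨{T | T.map e ∈ sys π}, ⟨?_, ?_⟩, ?_⟩
  · intro T hT
    rw [← card_map e]
    exact sys_card hT
  · intro T hT T' hT' a b hab ha hb ha' hb'
    have := sys_linear π _ hT _ hT' (e a) (e b) (fun h => hab (e.injective h))
      (mem_map_of_mem e ha) (mem_map_of_mem e hb) (mem_map_of_mem e ha') (mem_map_of_mem e hb')
    exact Finset.map_injective e this
  · intro S hS
    have h1 := hπ (S.map e) (by
      intro T hT hTS
      obtain ⟨u, hu, rfl⟩ := Finset.subset_map_iff.1 hTS
      exact hS u hT hu)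
    rw [card_map, hcard] at h1
    push_cast at h1
    refine h1.trans ?_
    have hp0 : (2 : ℝ) ≤ p := by exact_mod_cast hp
    have hsq : 0 < √(p : ℝ) := Real.sqrt_pos.2 (by linarith)
    have hq1 : (3 : ℝ) ^ k ≤ 3 * √(p : ℝ) := by
      have h2 : ((3 : ℝ) ^ k) ^ 2 ≤ (3 * √(p : ℝ)) ^ 2 := by
        rw [mul_pow, Real.sq_sqrt (by linarith), ← pow_mul, mul_comm k 2, pow_mul]
        have : ((9 ^ k : ℕ) : ℝ) ≤ ((9 * p : ℕ) : ℝ) := by exact_mod_cast hk3.le
        push_cast at this
        norm_num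
        exact this
      exact le_of_sq_le_sq h2 (by positivity)
    have hq0 : (1 : ℝ) ≤ (3 : ℝ) ^ k := one_le_pow₀ (by norm_num)
    have hlog : Real.log ((3 : ℝ) ^ k) ≤ Real.log 3 + Real.log p / 2 := by
      calc Real.log ((3 : ℝ) ^ k) ≤ Real.log (3 * √(p : ℝ)) :=
            Real.log_le_log (by linarith) hq1
        _ = Real.log 3 + Real.log p / 2 := by
            rw [Real.log_mul (by norm_num) hsq.ne', Real.log_sqrt (by linarith)]
    have hlog0 : 0 ≤ Real.log ((3 : ℝ) ^ k) := Real.log_nonneg hq0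
    have hl3 := log_three
    calc (3 : ℝ) ^ k * (3 + 4 * Real.log ((3 : ℝ) ^ k))
        ≤ (3 * √(p : ℝ)) * (3 + 4 * Real.log ((3 : ℝ) ^ k)) :=
          mul_le_mul_of_nonneg_right hq1 (by linarith)
      _ = √(p : ℝ) * (9 + 12 * Real.log ((3 : ℝ) ^ k)) := by ring
      _ ≤ √(p : ℝ) * (26 + 6 * Real.log p) := by
          apply mul_le_mul_of_nonneg_left _ hsq.le
          linarith

lemma upper (p : ℕ) (hp : 2 ≤ p) : (g p : ℝ) ≤ p / 2 + √(p : ℝ) * (13 + 3 * Real.log p) := by
  obtain ⟨Fm, hF, hS⟩ := exists_linear p hp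
  have hg := (isGreatest_g p).1
  have hp0 : (2 : ℝ) ≤ p := by exact_mod_cast hp
  have hsq : 1 ≤ √(p : ℝ) := by
    rw [Real.one_le_sqrt]; linarith
  have hlog : 0 ≤ Real.log (p : ℝ) := Real.log_nonneg (by linarith)
  by_cases h5 : 5 ≤ g p
  · have hm := hg (Fin p ⊕ Finset (Fin p)) (levi Fm) (levi_hasScheme _ hF)
    obtain ⟨S, hS1, hS2⟩ := levi_minor h5 _ hF hm
    have h6 := hS S hS1
    have h7 : (2 : ℝ) * g p ≤ p + S.card := by exact_mod_cast hS2
    linarith
  · have h4 : (g p : ℝ) ≤ 4 := by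
      have : g p ≤ 4 := by omega
      exact_mod_cast this
    nlinarith

/-- **Theorem.** For every `p ≥ 2` the number `g p` is a genuine maximum and
`⌊p/2⌋ + 1 ≤ g p ≤ p/2 + √p (13 + 3 log p)`. -/
theorem result : ∀ p : ℕ, 2 ≤ p → IsGreatest {t | Forces p t} (g p) ∧ p / 2 + 1 ≤ g p ∧
    (g p : ℝ) ≤ (p : ℝ) / 2 + √(p : ℝ) * (13 + 3 * Real.log p) :=
  fun p hp => ⟨isGreatest_g p, (isGreatest_g p).2 (forces_half hp), upper p hp⟩

end Pool.Agent.Results.MP_8d161b_co.SqrtLogError
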